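import Pool.Agent.Helper70.BI.HH.StHC

/-!
# Project BI, stage 7 (H): MODULE NAT, naturality of the associator
-/

set_option autoImplicit false

open scoped Topology unitInterval
open Set

namespace Pool.Agent.Helper70.HH

namespace NAT

section conv

variable {Z : Type} [TopologicalSpace Z]

/-- the coordinates of the path along the bottom and the right side -/
noncomputable def c1 (t : ℝ) : ℝ := min 1 (2 * t)

noncomputable def c2 (t : ℝ) : ℝ := max 0 (2 * t - 1)

theorem continuous_c1 : Continuous c1 := by
  unfold c1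
  fun_prop

theorem continuous_c2 : Continuous c2 := by
  unfold c2
  fun_prop

/-- clamping -/
noncomputable def cl (t : ℝ) : I := projIcc 0 1 zero_le_one t

theorem continuous_cl : Continuous cl := continuous_projIcc (h := zero_le_one)

theorem cl_coe (t : I) : cl t = t := projIcc_val _ t

theorem cl_zero {t : ℝ} (h : t ≤ 0) : cl t = 0 := projIcc_of_le_left _ h

theorem cl_one {t : ℝ} (h : 1 ≤ t) : cl t = 1 := projIcc_of_right_le _ h

/-- the boundary paths of a square are homotopic -/
theorem sqHom {a b c d : Z} (G : C(I × I, Z)) (A : Path a b) (B : Path b d) (A' : Path a c)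
    (B' : Path c d) (hA : ∀ s, A s = G (s, 0)) (hB : ∀ u, B u = G (1, u))
    (hA' : ∀ u, A' u = G (0, u)) (hB' : ∀ s, B' s = G (s, 1)) :
    (A.trans B).Homotopic (A'.trans B') := by
  have e1 : ∀ s : I, (A.trans B) s = G (cl (c1 s), cl (c2 s)) := by
    intro s
    rw [Path.trans_apply]
    split_ifs with h
    · rw [hA]
      have h1 : c2 s = 0 := max_eq_left (by linarith)
      have h2 : c1 s = 2 * s := min_eq_right (by linarith)
      rw [h1, h2, cl_zero le_rfl]
      congr 2
      exact (projIcc_of_mem _ _).symm
    · push Not at h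
      rw [hB]
      have h1 : c2 s = 2 * s - 1 := max_eq_right (by linarith)
      have h2 : c1 s = 1 := min_eq_left (by linarith)
      rw [h1, h2, cl_one le_rfl]
      congr 2
      exact (projIcc_of_mem _ _).symm
  have e2 : ∀ s : I, (A'.trans B') s = G (cl (c2 s), cl (c1 s)) := by
    intro s
    rw [Path.trans_apply]
    split_ifs with h
    · rw [hA']
      have h1 : c2 s = 0 := max_eq_left (by linarith)
      have h2 : c1 s = 2 * s := min_eq_right (by linarith)
      rw [h1, h2, cl_zero le_rfl]
      congr 2
      exact (projIcc_of_mem _ _).symm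
    · push Not at h
      rw [hB']
      have h1 : c2 s = 2 * s - 1 := max_eq_right (by linarith)
      have h2 : c1 s = 1 := min_eq_left (by linarith)
      rw [h1, h2, cl_one le_rfl]
      congr 2
      exact (projIcc_of_mem _ _).symm
  have k1 := continuous_c1
  have k2 := continuous_c2
  have k3 := continuous_cl
  refine ⟨⟨⟨⟨fun z : I × I => G (cl ((1 - (z.1 : ℝ)) * c1 z.2 + z.1 * c2 z.2),
    cl ((1 - (z.1 : ℝ)) * c2 z.2 + z.1 * c1 z.2)), ?_⟩, ?_, ?_⟩, ?_⟩⟩
  · refine G.continuous.comp (Continuous.prodMk (k3.comp ?_) (k3.comp ?_))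
    · fun_prop
    · fun_prop
  · intro s
    show G (cl ((1 - ((0 : I) : ℝ)) * c1 s + ((0 : I) : ℝ) * c2 s),
      cl ((1 - ((0 : I) : ℝ)) * c2 s + ((0 : I) : ℝ) * c1 s)) = (A.trans B) s
    rw [e1, Icc.coe_zero, sub_zero, one_mul, one_mul, zero_mul, zero_mul, add_zero, add_zero]
  · intro s
    show G (cl ((1 - ((1 : I) : ℝ)) * c1 s + ((1 : I) : ℝ) * c2 s),
      cl ((1 - ((1 : I) : ℝ)) * c2 s + ((1 : I) : ℝ) * c1 s)) = (A'.trans B') s
    rw [e2, Icc.coe_one, sub_self, one_mul, one_mul, zero_mul, zero_mul, zero_add, zero_add]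
  · intro v s hs
    have h10 : c1 0 = 0 := by unfold c1; norm_num
    have h20 : c2 0 = 0 := by unfold c2; norm_num
    have h11 : c1 1 = 1 := by unfold c1; norm_num
    have h21 : c2 1 = 1 := by unfold c2; norm_num
    show G (cl ((1 - (v : ℝ)) * c1 s + (v : ℝ) * c2 s),
      cl ((1 - (v : ℝ)) * c2 s + (v : ℝ) * c1 s)) = (A.trans B) s
    rcases hs with rfl | hs
    · rw [e1, Icc.coe_zero, h10, h20]
      simp
    · have hs' : s = 1 := hs
      subst hs'
      rw [e1, Icc.coe_one, h11, h21]
      simp

end conv

variable {X : Type} [TopologicalSpace X]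

/-- the associators of a family of triples of paths -/
noncomputable def G {x y z w : X} {p p' : Path x y} {q q' : Path y z} {r r' : Path z w}
    (γ : Path p p') (δ : Path q q') (e : Path r r') : C(I × I, Path x w) where
  toFun u := ascP (γ u.1) (δ u.1) (e u.1) u.2
  continuous_toFun := by
    rw [← Path.continuous_uncurry_iff]
    show Continuous fun v : (I × I) × I => (((γ v.1.1).trans (δ v.1.1)).trans (e v.1.1)).extend
      ((1 - (v.1.2 : ℝ)) * v.2 + (v.1.2 : ℝ) * phi v.2)
    have hphi := continuous_phi
    have h1 : Continuous fun v : (I × I) × I => ((γ v.1.1).trans (δ v.1.1)).trans (e v.1.1) := by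
      have a1 : Continuous fun v : (I × I) × I => γ v.1.1 :=
        γ.continuous.comp (continuous_fst.comp continuous_fst)
      have a2 : Continuous fun v : (I × I) × I => δ v.1.1 :=
        δ.continuous.comp (continuous_fst.comp continuous_fst)
      have a3 : Continuous fun v : (I × I) × I => e v.1.1 :=
        e.continuous.comp (continuous_fst.comp continuous_fst)
      exact (a1.path_trans a2).path_trans a3
    refine Continuous.pathExtend (Path.continuous_uncurry_iff.2 h1) ?_
    fun_prop

theorem G_apply {x y z w : X} {p p' : Path x y} {q q' : Path y z} {r r' : Path z w}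
    (γ : Path p p') (δ : Path q q') (e : Path r r') (u : I × I) :
    G γ δ e u = ascP (γ u.1) (δ u.1) (e u.1) u.2 := rfl

theorem asc_congr {x y z w : X} {p p' : Path x y} {q q' : Path y z} {r r' : Path z w}
    (hp : p = p') (hq : q = q') (hr : r = r') (u : I) :
    (ascP p q r u : Path x w) = ascP p' q' r' u := by
  subst hp hq hr
  rfl

theorem nat {x y z w : X} {p p' : Path x y} {q q' : Path y z} {r r' : Path z w}
    (γ : Path p p') (δ : Path q q') (e : Path r r') :
    ((hcP (hcP γ δ) e).trans (ascP p' q' r')).Homotopic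
      ((ascP p q r).trans (hcP γ (hcP δ e))) := by
  refine sqHom (G γ δ e) _ _ _ _ ?_ ?_ ?_ ?_
  · intro s
    rw [G_apply]
    exact (ascP (γ s) (δ s) (e s)).source.symm
  · intro u
    rw [G_apply]
    exact asc_congr γ.target.symm δ.target.symm e.target.symm u
  · intro u
    rw [G_apply]
    exact asc_congr γ.source.symm δ.source.symm e.source.symm u
  · intro s
    rw [G_apply]
    exact (ascP (γ s) (δ s) (e s)).target.symm

end NAT

/-- **NAT.** -/
theorem m_NAT : StNAT := by
  intro X _ x y z w p p' q q' r r' α β ε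
  induction α using Path.Homotopic.Quotient.ind with | mk γ =>
  induction β using Path.Homotopic.Quotient.ind with | mk δ =>
  induction ε using Path.Homotopic.Quotient.ind with | mk e =>
  unfold asc
  rw [hc_mk, hc_mk, hc_mk, hc_mk, ← Path.Homotopic.Quotient.mk_trans,
    ← Path.Homotopic.Quotient.mk_trans]
  exact Path.Homotopic.Quotient.eq.2 (NAT.nat γ δ e)

end Pool.Agent.Helper70.HH
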